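import Mathlib
import Pool.Agent.Helper8.MG.Parts

/-!
Part GEQ: the word to be decided is a multiple of `Wd`.
-/

namespace Pool.Agent.Helper9.MG.GEQ

open Finset Polynomial Pool.Agent.Helper707.Idem
open Pool.Agent.Helper707.Rel (Sys)
open Pool.Agent.Helper8.MG

universe u

variable {B : Type*} [Ring B]

theorem Wd_eq {e : V → B} {x : B} (h : e (.b 0) * e (.b 0) = e (.b 0))
    (hc : e (.c (.d 0)) * e (.c (.d 0)) = e (.c (.d 0))) (ha : e .al * e .al = e .al) (N : ℕ) :
    Wd e x (K e x .al .al) 0 (.d 0) N 0 = e .al * x * (e (.b 0) * x) ^ (N + 1)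
      * e (.c (.d 0)) * x * e .al * x * e .al := by
  have key : ∀ N : ℕ, e .al * x * e (.b 0) * (K e x (.b 0) (.b 0)) ^ N
      = e .al * x * (e (.b 0) * x) ^ N * e (.b 0) := by
    intro N
    induction N with
    | zero => simp
    | succ N ih =>
      rw [pow_succ, ← mul_assoc, ih, pow_succ]
      unfold K
      calc e .al * x * (e (.b 0) * x) ^ N * e (.b 0) * (e (.b 0) * x * e (.b 0))
          = e .al * x * (e (.b 0) * x) ^ N * (e (.b 0) * e (.b 0)) * x * e (.b 0) := by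
            simp only [mul_assoc]
        _ = _ := by rw [h]; simp only [mul_assoc]
  unfold Wd
  rw [pow_zero, mul_one]
  have h1 : K e x .al (.b 0) = e .al * x * e (.b 0) := rfl
  rw [h1, key]
  unfold K
  calc e .al * x * (e (.b 0) * x) ^ N * e (.b 0) * (e (.b 0) * x * e (.c (.d 0)))
        * (e (.c (.d 0)) * x * e .al) * (e .al * x * e .al)
      = e .al * x * (e (.b 0) * x) ^ N * (e (.b 0) * e (.b 0)) * x
        * (e (.c (.d 0)) * e (.c (.d 0))) * x * (e .al * e .al) * x * e .al := by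
        simp only [mul_assoc]
    _ = _ := by rw [h, hc, ha, pow_succ]; simp only [mul_assoc]

theorem t_GEQ : S_GEQ.{u} := by
  intro F _ _ B _ _ Y hm M hM z x h N
  have hPM : (aeval z (P F (Rr Y.m))) ^ M = 0 := by rw [h, zero_pow hM.ne']
  have he : ∀ p ∈ S Y.m, el F Y M z p * el F Y M z p = el F Y M z p := fun p hp =>
    ee_mul_self hPM (num_le hp)
  have ha := mem_al Y.m
  have hb : V.b 0 ∈ S Y.m := mem_b.2 (by omega)
  have hc : V.c (.d 0) ∈ S Y.m := mem_c.2 (mem_d.2 hm)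
  have hi : ∀ p ∈ S Y.m, aeval z (IF F (Rr Y.m) (num p))
      = (iv (Rr Y.m) (num p) : F) • el F Y M z p := fun p hp => aeval_IF hM h (num_le hp)
  have hiv : ∀ q, (iv (Rr Y.m) q : F) ≠ 0 := fun q => by exact_mod_cast iv_ne_zero _ q
  refine ⟨(iv (Rr Y.m) (num .al) : F) * (iv (Rr Y.m) (num (.b 0)) : F) ^ (N + 1)
    * (iv (Rr Y.m) (num (.c (.d 0))) : F) * (iv (Rr Y.m) (num .al) : F)
    * (iv (Rr Y.m) (num .al) : F), ?_, ?_⟩
  · exact mul_ne_zero (mul_ne_zero (mul_ne_zero (mul_ne_zero (hiv _) (pow_ne_zero _ (hiv _)))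
      (hiv _)) (hiv _)) (hiv _)
  · rw [Wd_eq (he _ hb) (he _ hc) (he _ ha)]
    unfold gel
    rw [hi _ ha, hi _ hc, hi _ hb]
    simp only [smul_mul_assoc, mul_smul_comm, smul_smul, _root_.smul_pow]
    congr 1
    ring

end Pool.Agent.Helper9.MG.GEQ
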