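import Mathlib
import Pool.Agent.Helper8.MG.Parts

/-!
Part HOM: completeness.
-/

set_option linter.unusedSectionVars false

namespace Pool.Agent.Helper9.MG.HOM

open Finset Polynomial Pool.Agent.Helper707.Idem
open Pool.Agent.Helper707.Rel (Sys)
open Pool.Agent.Y555.Mag.Alg (vals NilExp lift_lift)
open Pool.Agent.H682R2.StdNil (std aug)
open Pool.Agent.Helper8.MG

universe u

variable (F : Type u) [Field F] [CharZero F]

theorem submodule_of_bv (U : Submodule F (Bs →₀ F)) (t : Module.End F (Bs →₀ F))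
    (h : ∀ β, t (bv F β) ∈ U) (y : Bs →₀ F) : t y ∈ U := by
  induction y using Finsupp.induction_linear with
  | zero => simp
  | add a b ha hb => rw [map_add]; exact U.add_mem ha hb
  | single β c =>
    have hs : (Finsupp.single β c : Bs →₀ F) = c • bv F β := by simp [bv]
    rw [hs, map_smul]
    exact U.smul_mem _ (h β)

/-- the two-sided ideal of all elements sending the module into `G` -/
noncomputable def Jm (hGST : S_GST.{u}) (hWCL : S_WCL.{u}) (Y : Sys) :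
    TwoSidedIdeal (FreeAlgebra F (Fin 3)) :=
  TwoSidedIdeal.mk' {g | ∀ y, FreeAlgebra.lift F (gens F Y.m) g y ∈ G F Y}
    (by intro y; simp)
    (by intro a b ha hb y; rw [map_add]; exact Submodule.add_mem _ (ha y) (hb y))
    (by intro a ha y; rw [map_neg]; exact Submodule.neg_mem _ (ha y))
    (by intro a b hb y; rw [map_mul]; exact hGST hWCL F Y a _ (hb y))
    (by intro a b ha y; rw [map_mul]; exact ha _)

theorem mem_Jm (hGST : S_GST.{u}) (hWCL : S_WCL.{u}) {Y : Sys} {g : FreeAlgebra F (Fin 3)} :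
    g ∈ Jm F hGST hWCL Y ↔ ∀ y, FreeAlgebra.lift F (gens F Y.m) g y ∈ G F Y := by
  rw [Jm, TwoSidedIdeal.mem_mk']
  rfl

theorem aeval_G (hGST : S_GST.{u}) (hWCL : S_WCL.{u}) {Y : Sys} (p : F[X]) {y : Bs →₀ F}
    (hy : y ∈ G F Y) : aeval (Zop F Y.m) p y ∈ G F Y := by
  have h := hGST hWCL F Y (aeval (FreeAlgebra.ι F 0) p) y hy
  rw [← Polynomial.aeval_algHom_apply, FreeAlgebra.lift_ι_apply] at h
  exact h

theorem Zop_G (hGST : S_GST.{u}) (hWCL : S_WCL.{u}) {Y : Sys} {y : Bs →₀ F}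
    (hy : y ∈ G F Y) : Zop F Y.m y ∈ G F Y := by
  have h := aeval_G F hGST hWCL (X : F[X]) hy
  rwa [aeval_X] at h

theorem tel_mem_G (hGST : S_GST.{u}) (hWCL : S_WCL.{u}) (hPRB : S_PRB.{u}) (hRMG : S_RMG.{u})
    {Y : Sys} {M : ℕ} (hM : 0 < M) (y : Bs →₀ F) :
    tel F Y M (Zop F Y.m) (Xop F Y.m) (Yop F) y ∈ G F Y := by
  apply submodule_of_bv F
  intro β
  unfold tel Theta
  rw [LinearMap.sum_apply]
  refine Submodule.sum_mem _ fun a ha => ?_
  rw [LinearMap.sum_apply]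
  refine Submodule.sum_mem _ fun b hb => ?_
  rw [Finset.mem_erase] at hb
  rw [Module.End.mul_apply, Module.End.mul_apply]
  have h1 : (ee F (Rr Y.m) M (Zop F Y.m) (num b)) (bv F β)
      = if vert β = b then bv F β else 0 := (hPRB F Y.m).2 M hM b hb.2 β
  rw [h1]
  split_ifs with h
  · exact aeval_G F hGST hWCL _ (hRMG hPRB F Y M hM a ha b hb.2 β h)
  · rw [map_zero, map_zero]; exact Submodule.zero_mem _

theorem fel_mem_G (hGST : S_GST.{u}) (hWCL : S_WCL.{u}) (hPRB : S_PRB.{u}) (hRMG : S_RMG.{u})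
    {Y : Sys} {M : ℕ} (hM : 0 < M) (y : Bs →₀ F) :
    fel F Y M (Zop F Y.m) (Xop F Y.m) (Yop F) y ∈ G F Y := by
  unfold fel
  rw [(hPRB F Y.m).1, zero_add, LinearMap.sub_apply, Module.End.mul_apply, Module.End.mul_apply]
  exact Submodule.sub_mem _ (Zop_G F hGST hWCL (tel_mem_G F hGST hWCL hPRB hRMG hM y))
    (tel_mem_G F hGST hWCL hPRB hRMG hM _)

theorem lift_fel (hMAP : S_MAP.{u}) (Y : Sys) (M : ℕ) :
    FreeAlgebra.lift F (gens F Y.m) (fel F Y M (FreeAlgebra.ι F (0 : Fin 3))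
      (FreeAlgebra.ι F 1) (FreeAlgebra.ι F 2)) = fel F Y M (Zop F Y.m) (Xop F Y.m) (Yop F) := by
  refine ((hMAP F (FreeAlgebra F (Fin 3)) (Module.End F (Bs →₀ F))
    (FreeAlgebra.lift F (gens F Y.m)) Y M
        (FreeAlgebra.ι F (0 : Fin 3)) (FreeAlgebra.ι F 1) (FreeAlgebra.ι F 2)).2.1).trans ?_
  rw [FreeAlgebra.lift_ι_apply, FreeAlgebra.lift_ι_apply, FreeAlgebra.lift_ι_apply]
  rfl

theorem lift_gel (hMAP : S_MAP.{u}) (Y : Sys) (N : ℕ) :
    FreeAlgebra.lift F (gens F Y.m) (gel F Y (FreeAlgebra.ι F (0 : Fin 3))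
      (FreeAlgebra.ι F 1) N) = gel F Y (Zop F Y.m) (Xop F Y.m) N := by
  refine ((hMAP F (FreeAlgebra F (Fin 3)) (Module.End F (Bs →₀ F))
    (FreeAlgebra.lift F (gens F Y.m)) Y 1
        (FreeAlgebra.ι F (0 : Fin 3)) (FreeAlgebra.ι F 1) (FreeAlgebra.ι F 2)).2.2 N).trans ?_
  rw [FreeAlgebra.lift_ι_apply, FreeAlgebra.lift_ι_apply]
  rfl

theorem t_HOM : S_HOM.{u} := by
  intro hWCL hGST hPRB hRMG hWFI hLAM hGEQ hMAP hEXT hEVM F _ _ Y hm T hT M hM w N h
  have hle : TwoSidedIdeal.span ({fel F Y M (FreeAlgebra.ι F (0 : Fin 3)) (FreeAlgebra.ι F 1)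
      (FreeAlgebra.ι F 2)} ∪ vals F T 3 w) ≤ Jm F hGST hWCL Y := by
    rw [TwoSidedIdeal.span_le]
    intro g hg
    rw [SetLike.mem_coe, mem_Jm]
    intro y
    rcases hg with hg | ⟨r, hr, p, -, rfl⟩
    · rw [Set.mem_singleton_iff] at hg
      rw [hg, lift_fel F hMAP]
      exact fel_mem_G F hGST hWCL hPRB hRMG hM (Y := Y) y
    · rw [hEVM hEXT F Y.m r (hT r hr) p y]
      exact Submodule.zero_mem _
  have h1 := (mem_Jm F hGST hWCL).1 (hle h)
  have h2 := mem_G.1 (h1 (bv F (.fin 0 0))) (lam F Y) (hLAM F Y)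
  rw [lift_gel F hMAP] at h2
  obtain ⟨s, hs, h3⟩ := hGEQ F (Module.End F (Bs →₀ F)) Y hm 1 one_pos (Zop F Y.m) (Xop F Y.m)
    (hPRB F Y.m).1 N
  have h4 : Wd (el F Y 1 (Zop F Y.m)) (Xop F Y.m)
      (K (el F Y 1 (Zop F Y.m)) (Xop F Y.m) .al .al) 0 (.d 0) N 0 (bv F (.fin 0 0))
      = bv F (.t 0 (.d 0) N 0 1 0) := hWFI hPRB F Y.m 1 one_pos hm N
  rw [h3, LinearMap.smul_apply, h4, map_smul, pair_bv, smul_eq_mul, mul_eq_zero] at h2
  rcases h2 with h5 | h5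
  · exact absurd h5 hs
  · by_contra hcon
    have h7 : lam F Y (.t 0 (.d 0) N 0 1 0) = 1 := by
      simp only [lam]
      rw [if_pos]
      refine ⟨?_, ?_, ?_⟩
      · simp [adj]
      · simp [lev]
      · simpa using hcon
    rw [h7] at h5
    exact one_ne_zero h5

end Pool.Agent.Helper9.MG.HOM
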