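import Mathlib
import Pool.Agent.Helper8.MG.Parts

/-!
Part MAP: algebra homomorphisms.
-/

set_option linter.unusedSectionVars false

namespace Pool.Agent.Helper9.MG.MAP

open Finset Polynomial Pool.Agent.Helper707.Idem
open Pool.Agent.Helper707.Rel (Sys)
open Pool.Agent.Helper8.MG

universe u

variable {F : Type*} [Field F] [CharZero F] {B C : Type*} [Ring B] [Algebra F B] [Ring C]
  [Algebra F C]

theorem el_map (φ : B →ₐ[F] C) (Y : Sys) (M : ℕ) (z : B) (p : V) :
    φ (el F Y M z p) = el F Y M (φ z) p := by
  unfold el ee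
  rw [← Polynomial.aeval_algHom_apply]

theorem K_map (φ : B →ₐ[F] C) (e : V → B) (x : B) (p q : V) :
    φ (K e x p q) = K (fun p => φ (e p)) (φ x) p q := by
  unfold K; rw [map_mul, map_mul]

theorem ty_map (φ : B →ₐ[F] C) (e : V → B) (x y : B) (j : Col) :
    φ (ty e x y j) = ty (fun p => φ (e p)) (φ x) (φ y) j := by
  cases j with
  | k i =>
    simp only [ty]
    split_ifs <;> simp only [K_map]
  | d r => simp only [ty, map_sub, K_map]

theorem rel_map (φ : B →ₐ[F] C) (Y : Sys) (e : V → B) (x y : B) (p q : V) :
    φ (rel Y e x y p q) = rel Y (fun p => φ (e p)) (φ x) (φ y) p q := by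
  cases p with
  | al =>
    cases q with
    | al => simp [rel]
    | b i => simp [rel]
    | c j =>
      cases j with
      | k i =>
        cases i with
        | zero => simp [rel]
        | succ i =>
          simp only [rel]
          split_ifs <;> simp only [map_zero, map_sub, map_mul, K_map]
      | d r =>
        simp only [rel]
        simp only [map_sub, map_mul, map_pow, map_nsmul, K_map]
  | b i =>
    cases q with
    | al => simp only [rel, map_sub, map_add, map_mul, K_map]
    | b i => simp [rel]
    | c j => simp only [rel, map_sub, map_mul, map_pow, K_map]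
  | c j =>
    cases q with
    | al => simp only [rel, map_mul, K_map, ty_map]
    | b i => simp [rel]
    | c j => simp [rel]

theorem tel_map (φ : B →ₐ[F] C) (Y : Sys) (M : ℕ) (z x y : B) :
    φ (tel F Y M z x y) = tel F Y M (φ z) (φ x) (φ y) := by
  unfold tel Theta
  simp only [map_sum, map_mul, rel_map]
  have h1 : ∀ p, φ (ee F (Rr Y.m) M z (num p)) = ee F (Rr Y.m) M (φ z) (num p) :=
    fun p => el_map φ Y M z p
  simp only [h1, el_map]

theorem fel_map (φ : B →ₐ[F] C) (Y : Sys) (M : ℕ) (z x y : B) :
    φ (fel F Y M z x y) = fel F Y M (φ z) (φ x) (φ y) := by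
  unfold fel
  rw [map_add, map_sub, map_mul, map_mul, tel_map, ← Polynomial.aeval_algHom_apply]

theorem gel_map (φ : B →ₐ[F] C) (Y : Sys) (z x : B) (N : ℕ) :
    φ (gel F Y z x N) = gel F Y (φ z) (φ x) N := by
  unfold gel
  simp only [map_mul, map_pow, ← Polynomial.aeval_algHom_apply]

theorem t_MAP : S_MAP.{u} := by
  intro F _ _ B C _ _ _ _ φ Y M z x y
  exact ⟨tel_map φ Y M z x y, fel_map φ Y M z x y, fun N => gel_map φ Y z x N⟩

end Pool.Agent.Helper9.MG.MAP
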