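import Mathlib
import Pool.Agent.Helper8.MG.Parts

/-!
Part MEM: soundness.
-/

set_option linter.unusedSectionVars false

namespace Pool.Agent.Helper9.MG.MEM

open Finset Polynomial Pool.Agent.Helper707.Idem
open Pool.Agent.Helper707.Rel (Sys)
open Pool.Agent.Y555.Mag.Alg (vals NilExp lift_lift)
open Pool.Agent.H682R2.StdNil (std aug)
open Pool.Agent.Helper8.MG

universe u

section mem

variable {F : Type u} [Field F] [CharZero F]
variable {B : Type*} [Ring B] [Algebra F B]

theorem ty_mem (I : TwoSidedIdeal B) (e : V → B) {x y : B} (hx : x ∈ I) (hy : y ∈ I) (j : Col) :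
    ty e x y j ∈ I := by
  have hK : ∀ {w : B}, w ∈ I → ∀ p q, K e w p q ∈ I := fun hw p q =>
    I.mul_mem_right _ _ (I.mul_mem_left _ _ hw)
  cases j with
  | k i =>
    simp only [ty]
    split_ifs
    · exact hK hx _ _
    · exact hK hy _ _
  | d r => exact I.sub_mem (hK hx _ _) (hK hy _ _)

theorem rel_mem (I : TwoSidedIdeal B) (Y : Sys) (e : V → B) {x y : B} (hx : x ∈ I) (hy : y ∈ I)
    (p q : V) : rel Y e x y p q ∈ I := by
  have hK : ∀ p q, K e x p q ∈ I := fun p q =>
    I.mul_mem_right _ _ (I.mul_mem_left _ _ hx)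
  cases p with
  | al =>
    cases q with
    | al => simp [rel]
    | b i => simp [rel]
    | c j =>
      cases j with
      | k i =>
        cases i with
        | zero => simp [rel]
        | succ i =>
          simp only [rel]
          split_ifs
          · exact I.sub_mem (I.mul_mem_left _ _ (hK _ _)) (I.mul_mem_left _ _ (hK _ _))
          · exact I.zero_mem
      | d r =>
        simp only [rel]
        refine I.sub_mem (I.mul_mem_left _ _ (hK _ _)) ?_
        rw [nsmul_eq_mul]
        exact I.mul_mem_left _ _ (I.mul_mem_left _ _ (hK _ _))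
  | b i =>
    cases q with
    | al =>
      exact I.sub_mem (I.add_mem (I.mul_mem_left _ _ (hK _ _)) (I.mul_mem_left _ _ (hK _ _)))
        (I.mul_mem_left _ _ (hK _ _))
    | b i => simp [rel]
    | c j => exact I.sub_mem (I.mul_mem_left _ _ (hK _ _)) (I.mul_mem_left _ _ (hK _ _))
  | c j =>
    cases q with
    | al => exact I.mul_mem_left _ _ (ty_mem I e hx hy j)
    | b i => simp [rel]
    | c j => simp [rel]

theorem tel_mem (I : TwoSidedIdeal B) (Y : Sys) (M : ℕ) (z : B) {x y : B} (hx : x ∈ I)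
    (hy : y ∈ I) : tel F Y M z x y ∈ I := by
  unfold tel Theta
  refine sum_mem fun a _ => sum_mem fun b _ => ?_
  exact I.mul_mem_right _ _ (I.mul_mem_left _ _ (rel_mem I Y _ hx hy a b))

theorem lift_mem_aug {a b : FreeAlgebra F (Fin 3)} (ha : a ∈ aug F 3) (hb : b ∈ aug F 3)
    {q : FreeAlgebra F (Fin 2)} (hq : q ∈ aug F 2) :
    FreeAlgebra.lift F ![a, b] q ∈ aug F 3 := by
  have hle : aug F 2 ≤ TwoSidedIdeal.comap (FreeAlgebra.lift F ![a, b]) (aug F 3) := by
    unfold aug
    rw [TwoSidedIdeal.span_le]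
    rintro _ ⟨i, rfl⟩
    rw [SetLike.mem_coe, TwoSidedIdeal.mem_comap, FreeAlgebra.lift_ι_apply]
    fin_cases i
    · exact ha
    · exact hb
  exact (TwoSidedIdeal.mem_comap _).1 (hle hq)

end mem

theorem t_MEM : S_MEM.{u} := by
  intro hROF hDER hGEQ hMAP F _ _ Y hm T g hg M hM hnil w N hN
  set z0 : FreeAlgebra F (Fin 3) := FreeAlgebra.ι F 0 with hz0
  set x0 : FreeAlgebra F (Fin 3) := FreeAlgebra.ι F 1 with hx0
  set y0 : FreeAlgebra F (Fin 3) := FreeAlgebra.ι F 2 with hy0
  set J := TwoSidedIdeal.span ({fel F Y M z0 x0 y0} ∪ vals F T 3 w) with hJ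
  set φ : FreeAlgebra F (Fin 3) →ₐ[F] J.ringCon.Quotient := J.ringCon.mkₐ F with hφ
  have hker : ∀ g, φ g = 0 ↔ g ∈ J := by
    intro g
    have h1 : g ∈ TwoSidedIdeal.ker J.ringCon.mk' ↔ g ∈ J := by
      rw [TwoSidedIdeal.ker_ringCon_mk']
    rw [← h1, TwoSidedIdeal.mem_ker]
    rfl
  obtain ⟨htel, hfel, hgel⟩ := hMAP F (FreeAlgebra F (Fin 3)) J.ringCon.Quotient φ Y M z0 x0 y0
  rw [← hker, hgel]
  set z := φ z0
  set x := φ x0
  set y := φ y0
  -- the relation
  have hf : fel F Y M z x y = 0 := by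
    rw [← hfel, hker]
    exact TwoSidedIdeal.subset_span (Or.inl rfl)
  -- nilpotency
  have hnil' : (aeval z (P F (Rr Y.m))) ^ M = 0 := by
    refine hnil J.ringCon.Quotient z (tel F Y M z x y) ?_ ?_
    · have : fel F Y M z x y = aeval z (P F (Rr Y.m))
          + (z * tel F Y M z x y - tel F Y M z x y * z) := rfl
      rw [this] at hf
      rw [eq_comm, ← sub_eq_zero, ← hf]
      abel
    · intro q hq
      have hz0a : z0 ∈ aug F 3 := TwoSidedIdeal.subset_span ⟨0, rfl⟩
      have hx0a : x0 ∈ aug F 3 := TwoSidedIdeal.subset_span ⟨1, rfl⟩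
      have hy0a : y0 ∈ aug F 3 := TwoSidedIdeal.subset_span ⟨2, rfl⟩
      have h1 : (fun i => FreeAlgebra.lift F ![z, tel F Y M z x y] (q i))
          = fun i => φ (FreeAlgebra.lift F ![z0, tel F Y M z0 x0 y0] (q i)) := by
        funext i
        have : FreeAlgebra.lift F ![z, tel F Y M z x y]
            = φ.comp (FreeAlgebra.lift F ![z0, tel F Y M z0 x0 y0]) := by
          apply FreeAlgebra.hom_ext
          funext k
          simp only [Function.comp_apply, FreeAlgebra.lift_ι_apply, AlgHom.comp_apply]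
          fin_cases k
          · rfl
          · exact htel.symm
        rw [this]; rfl
      rw [h1, ← lift_lift]
      refine (hker _).2 (TwoSidedIdeal.subset_span (Or.inr ?_))
      exact ⟨g, hg, _, fun _ i => lift_mem_aug hz0a (tel_mem _ Y M z0 hx0a hy0a) (hq i), rfl⟩
  obtain ⟨hrel, hP⟩ := single_relation (S := S Y.m) (num := num) (M := M) (F := F)
    (fun a _ b _ h => num_inj h) (fun a ha => num_le ha) hnil' (rel Y (el F Y M z) x y) hf
  have he : ∀ p ∈ S Y.m, el F Y M z p * el F Y M z p = el F Y M z p :=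
    fun p hp => ee_mul_self hnil' (num_le hp)
  have hR : Rels Y (el F Y M z) x y := hROF Y J.ringCon.Quotient _ x y he hrel
  obtain ⟨s, -, hs⟩ := hGEQ F J.ringCon.Quotient Y hm M hM z x hP N
  rw [hs, hDER Y J.ringCon.Quotient _ x y hR he hm N hN, smul_zero]

end Pool.Agent.Helper9.MG.MEM
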